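import Mathlib

/-!
# The bound `2k - n` for the signed `k`-subdomination number fails for connected graphs

Let `h ≥ 4` be even. Take two copies of the complete graph `K_h`, delete the edge `{0, 1}` in both
and join the vertex `0` of each copy to the vertex `1` of the other copy. This graph is connected
and has `n = 2 h` vertices. The closed neighbourhoods of the two copies `v, v'` of a vertex have
even size `h` and partition the vertex set, so `f[v] + f[v'] = f(V)` and `f[v]`, `f[v']` are even.
If `f(V) ≤ 2`, then at most one of `v, v'` is covered, so at most `h` vertices are covered.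
-/

set_option autoImplicit false

namespace Pool.Agent.Results.MP_1fc697_co.ConnectedFails

open Finset

open Classical in
/-- `f[v]`: the sum of `f` over the closed neighbourhood of `v`. -/
noncomputable def nsum {V : Type*} [Fintype V] (G : SimpleGraph V) (f : V → ℤ) (v : V) : ℤ :=
  ∑ u ∈ univ.filter (fun u => u = v ∨ G.Adj v u), f u

open Classical in
/-- `f` is a signed `k`-subdominating function of `G`. -/
def IsSubdominating {V : Type*} [Fintype V] (G : SimpleGraph V) (k : ℕ) (f : V → ℤ) : Prop :=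
  (∀ v, f v = 1 ∨ f v = -1) ∧ k ≤ (univ.filter fun v => 1 ≤ nsum G f v).card

/-- The signed `k`-subdomination number: the least weight of a signed `k`-subdominating
function. -/
noncomputable def gammaKs {V : Type*} [Fintype V] (G : SimpleGraph V) (k : ℕ) : ℤ :=
  sInf {w : ℤ | ∃ f : V → ℤ, IsSubdominating G k f ∧ ∑ v, f v = w}

/-- `p_G(n)`: the least `p` such that `γ_{ks}(G) ≤ 2 k - n` for all connected graphs `G` of order
`n` and all `k` with `p ≤ k ≤ n`. -/
noncomputable def pConn (n : ℕ) : ℕ :=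
  sInf {p : ℕ | ∀ (V : Type) (_ : Fintype V) (G : SimpleGraph V), Fintype.card V = n →
    G.Connected → ∀ k : ℕ, p ≤ k → k ≤ n → gammaKs G k ≤ 2 * k - n}

lemma nsum_def {V : Type*} [Fintype V] (G : SimpleGraph V) (f : V → ℤ) (v : V)
    [DecidablePred fun u => u = v ∨ G.Adj v u] :
    nsum G f v = ∑ u ∈ univ.filter (fun u => u = v ∨ G.Adj v u), f u := by
  unfold nsum
  congr!

lemma weight_ge {V : Type*} [Fintype V] (f : V → ℤ) (hf : ∀ v, f v = 1 ∨ f v = -1) :
    -(Fintype.card V : ℤ) ≤ ∑ v, f v := by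
  have : ∑ v : V, (-1 : ℤ) ≤ ∑ v, f v :=
    Finset.sum_le_sum fun v _ => by rcases hf v with h | h <;> simp [h]
  simpa using this

lemma bddBelow {V : Type*} [Fintype V] (G : SimpleGraph V) (k : ℕ) :
    BddBelow {w : ℤ | ∃ f : V → ℤ, IsSubdominating G k f ∧ ∑ v, f v = w} :=
  ⟨-(Fintype.card V : ℤ), by rintro w ⟨f, hf, rfl⟩; exact weight_ge f hf.1⟩

lemma isSub_one {V : Type*} [Fintype V] (G : SimpleGraph V) (k : ℕ) (hk : k ≤ Fintype.card V) :
    IsSubdominating G k fun _ => 1 := by
  classical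
  refine ⟨fun _ => Or.inl rfl, ?_⟩
  have : (univ.filter fun v => 1 ≤ nsum G (fun _ => (1 : ℤ)) v) = univ := by
    ext v
    simp only [mem_filter, mem_univ, true_and, iff_true]
    unfold nsum
    rw [Finset.sum_const, nsmul_eq_mul, mul_one]
    have : 0 < (univ.filter fun u => u = v ∨ G.Adj v u).card :=
      Finset.card_pos.2 ⟨v, by simp⟩
    exact_mod_cast this
  rw [this, Finset.card_univ]
  exact hk

lemma gammaKs_le_card {V : Type*} [Fintype V] (G : SimpleGraph V) :
    gammaKs G (Fintype.card V) ≤ Fintype.card V :=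
  csInf_le (bddBelow G _) ⟨fun _ => 1, isSub_one G _ le_rfl, by simp⟩

/-- The pair `{i, j}` is `{0, 1}`. -/
def Cross {h : ℕ} (i j : Fin h) : Prop := (i.val = 0 ∧ j.val = 1) ∨ (i.val = 1 ∧ j.val = 0)

instance {h : ℕ} (i j : Fin h) : Decidable (Cross i j) := by unfold Cross; infer_instance

lemma Cross.symm {h : ℕ} {i j : Fin h} (hc : Cross i j) : Cross j i := by
  unfold Cross at *; omega

/-- Two copies of `K_h` without the edge `{0, 1}`, with the vertex `0` of each copy joined to the
vertex `1` of the other. -/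
def Gr (h : ℕ) : SimpleGraph (Fin h × Bool) where
  Adj u v := u.1 ≠ v.1 ∧ v.2 = if Cross u.1 v.1 then !u.2 else u.2
  symm := ⟨by
    rintro ⟨i, a⟩ ⟨j, b⟩ ⟨h1, h2⟩
    refine ⟨h1.symm, ?_⟩
    simp only at h2 ⊢
    by_cases hc : Cross i j
    · rw [if_pos hc] at h2
      rw [if_pos hc.symm, h2, Bool.not_not]
    · rw [if_neg hc] at h2
      rw [if_neg (fun h => hc h.symm), h2]⟩
  loopless := ⟨by rintro u ⟨h1, _⟩; exact h1 rfl⟩

lemma nsum_eq (h : ℕ) (f : Fin h × Bool → ℤ) (i : Fin h) (a : Bool) :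
    nsum (Gr h) f (i, a) = ∑ j : Fin h, f (j, if Cross i j then !a else a) := by
  classical
  rw [nsum_def]
  symm
  refine Finset.sum_bij (fun j _ => (j, if Cross i j then !a else a)) ?_ ?_ ?_ ?_
  · intro j _
    refine Finset.mem_filter.2 ⟨mem_univ _, ?_⟩
    by_cases hij : j = i
    · left
      subst hij
      have : ¬ Cross j j := by unfold Cross; omega
      rw [if_neg this]
    · right
      exact ⟨fun h => hij h.symm, rfl⟩
  · intro j _ j' _ hjj
    exact (Prod.ext_iff.1 hjj).1
  · rintro ⟨j, b⟩ hu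
    refine ⟨j, mem_univ _, ?_⟩
    rcases (Finset.mem_filter.1 hu).2 with h1 | h1
    · obtain ⟨h2, h3⟩ := Prod.mk.inj h1
      subst h2 h3
      have : ¬ Cross j j := by unfold Cross; omega
      simp only [this, if_false]
    · exact Prod.ext rfl h1.2.symm
  · intro j _
    rfl

lemma nsum_add (h : ℕ) (f : Fin h × Bool → ℤ) (i : Fin h) (a : Bool) :
    nsum (Gr h) f (i, a) + nsum (Gr h) f (i, !a) = ∑ v, f v := by
  rw [nsum_eq, nsum_eq, ← Finset.sum_add_distrib, Fintype.sum_prod_type]
  refine Finset.sum_congr rfl fun j _ => ?_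
  rw [Fintype.sum_bool]
  by_cases hc : Cross i j
  · simp only [hc, if_true, Bool.not_not]
    cases a
    · simp
    · simp [add_comm]
  · simp only [hc, if_false]
    cases a
    · simp [add_comm]
    · simp

lemma even_sum_pm {ι : Type*} (s : Finset ι) (g : ι → ℤ) (hg : ∀ j, g j = 1 ∨ g j = -1)
    (hs : Even s.card) : Even (∑ j ∈ s, g j) := by
  have h1 : ∑ j ∈ s, g j = ∑ j ∈ s, (g j - 1) + s.card := by
    rw [Finset.sum_sub_distrib]; simp
  rw [h1]
  refine Even.add (Finset.even_sum _ fun j _ => ?_) (by exact_mod_cast hs)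
  rcases hg j with h | h <;> rw [h] <;> decide

/-- At most half of the vertices are covered if the weight is at most `2`. -/
theorem covered_le (h : ℕ) (hh : Even h) (f : Fin h × Bool → ℤ) (hf : ∀ v, f v = 1 ∨ f v = -1)
    (hw : ∑ v, f v ≤ 2) : (univ.filter fun v => 1 ≤ nsum (Gr h) f v).card ≤ h := by
  have heven : ∀ i a, Even (nsum (Gr h) f (i, a)) := by
    intro i a
    rw [nsum_eq]
    exact even_sum_pm _ _ (fun j => hf _) (by simpa using hh)
  calc (univ.filter fun v => 1 ≤ nsum (Gr h) f v).card ≤ (univ : Finset (Fin h)).card := by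
        refine Finset.card_le_card_of_injOn (fun v => v.1) (fun v _ => by simp) ?_
        rintro ⟨i, a⟩ hu ⟨j, b⟩ hv hij
        simp only [coe_filter, mem_univ, true_and, Set.mem_ofPred_eq] at hu hv hij
        subst hij
        by_cases hab : a = b
        · rw [hab]
        · exfalso
          have hb : b = !a := by cases a <;> cases b <;> simp_all
          subst hb
          have h1 := nsum_add h f i a
          obtain ⟨x, hx⟩ := heven i a
          obtain ⟨y, hy⟩ := heven i !a
          omega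
    _ = h := by simp

lemma connected (h : ℕ) (hh : 3 ≤ h) : (Gr h).Connected := by
  have h0 : (⟨2, by omega⟩ : Fin h).val = 2 := rfl
  set c : Fin h := ⟨2, by omega⟩ with hc
  -- every vertex of a copy is joined to the vertex `2` of this copy
  have h1 : ∀ (i : Fin h) (a : Bool), (Gr h).Reachable (c, a) (i, a) := by
    intro i a
    by_cases hi : c = i
    · rw [hi]
    · have : (Gr h).Adj (c, a) (i, a) := by
        refine ⟨hi, ?_⟩
        have hn : ¬ Cross c i := by unfold Cross; rw [h0]; omega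
        simp only [hn, if_false]
      exact this.reachable
  have h2 : (Gr h).Reachable (c, false) (c, true) := by
    have h3 : (Gr h).Adj (⟨0, by omega⟩, false) (⟨1, by omega⟩, true) := by
      refine ⟨by simp, ?_⟩
      have : Cross (⟨0, by omega⟩ : Fin h) ⟨1, by omega⟩ := Or.inl ⟨rfl, rfl⟩
      simp only [this, if_true, Bool.not_false]
    exact ((h1 _ false).trans h3.reachable).trans (h1 _ true).symm
  have h4 : ∀ v, (Gr h).Reachable (c, false) v := by
    rintro ⟨i, a⟩
    cases a
    · exact h1 i false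
    · exact h2.trans (h1 i true)
  have : Nonempty (Fin h × Bool) := ⟨(c, false)⟩
  exact ⟨fun u v => (h4 u).symm.trans (h4 v)⟩

/-- The function with the value `1` at the vertices `0, ..., h / 2` of both copies. -/
def fn (h : ℕ) (v : Fin h × Bool) : ℤ := if v.1.val < h / 2 + 1 then 1 else -1

lemma sum_fn (h : ℕ) (hh : Even h) (h2 : 2 ≤ h) :
    ∑ j : Fin h, (if j.val < h / 2 + 1 then (1 : ℤ) else -1) = 2 := by
  obtain ⟨q, rfl⟩ := hh
  have e : (q + q) / 2 = q := by omega
  rw [e, Fin.sum_univ_eq_sum_range (fun j => if j < q + 1 then (1 : ℤ) else -1) (q + q)]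
  have h3 : q + q = (q + 1) + (q - 1) := by omega
  rw [h3, Finset.sum_range_add]
  have h4 : ∑ x ∈ range (q + 1), (if x < q + 1 then (1 : ℤ) else -1) = q + 1 := by
    rw [Finset.sum_congr rfl (fun x hx => if_pos (mem_range.1 hx))]
    simp
  have h5 : ∑ x ∈ range (q - 1), (if q + 1 + x < q + 1 then (1 : ℤ) else -1) = -((q - 1 : ℕ) : ℤ) := by
    rw [Finset.sum_congr rfl (fun x _ => if_neg (by omega))]
    simp
  rw [h4, h5]
  omega

lemma gamma_le (h : ℕ) (hh : Even h) (h2 : 2 ≤ h) (k : ℕ) (hk : k ≤ 2 * h) :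
    gammaKs (Gr h) k ≤ 4 := by
  classical
  refine csInf_le (bddBelow _ _) ⟨fn h, ⟨fun v => ?_, ?_⟩, ?_⟩
  · unfold fn; split_ifs
    · exact Or.inl rfl
    · exact Or.inr rfl
  · have : (univ.filter fun v => 1 ≤ nsum (Gr h) (fn h) v) = univ := by
      ext ⟨i, a⟩
      simp only [mem_filter, mem_univ, true_and, iff_true]
      rw [nsum_eq]
      unfold fn
      rw [sum_fn h hh h2]
      norm_num
    rw [this, Finset.card_univ, Fintype.card_prod, Fintype.card_fin, Fintype.card_bool]
    omega
  · rw [Fintype.sum_prod_type]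
    simp only [Fintype.sum_bool, fn, Finset.sum_add_distrib]
    rw [sum_fn h hh h2]
    norm_num

/-- The exact value for `k = h + 1`. -/
theorem gamma_eq (h : ℕ) (hh : Even h) (h2 : 2 ≤ h) : gammaKs (Gr h) (h + 1) = 4 := by
  classical
  refine le_antisymm (gamma_le h hh h2 _ (by omega)) ?_
  refine le_csInf ⟨_, fun _ => 1, isSub_one _ _ ?_, rfl⟩ ?_
  · rw [Fintype.card_prod, Fintype.card_fin, Fintype.card_bool]; omega
  · rintro w ⟨f, hf, rfl⟩
    by_contra hcon
    push Not at hcon
    have heven : Even (∑ v, f v) := by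
      refine even_sum_pm _ _ hf.1 ?_
      rw [Finset.card_univ, Fintype.card_prod, Fintype.card_fin, Fintype.card_bool]
      exact ⟨h, by ring⟩
    obtain ⟨x, hx⟩ := heven
    have := covered_le h hh f hf.1 (by omega)
    have := hf.2
    omega

theorem pConn_ge (n : ℕ) (hn : 8 ≤ n) (h4 : 4 ∣ n) : n / 2 + 2 ≤ pConn n := by
  have hmem : pConn n ∈ {p : ℕ | ∀ (V : Type) (_ : Fintype V) (G : SimpleGraph V),
      Fintype.card V = n → G.Connected → ∀ k : ℕ, p ≤ k → k ≤ n → gammaKs G k ≤ 2 * k - n} := by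
    refine Nat.sInf_mem ⟨n, ?_⟩
    intro V _ G hc _ k h1 h2
    have : k = n := by omega
    subst this
    have := gammaKs_le_card G
    rw [hc] at this
    linarith
  by_contra hcon
  push Not at hcon
  obtain ⟨q, rfl⟩ := h4
  have h1 := hmem (Fin (2 * q) × Bool) inferInstance (Gr (2 * q)) (by simp; omega)
    (connected _ (by omega)) (2 * q + 1) (by omega) (by omega)
  rw [gamma_eq (2 * q) ⟨q, by ring⟩ (by omega)] at h1
  push_cast at h1
  linarith

/-- (1) For every `n ≥ 8` divisible by `4` there is a connected graph `G` of order `n` with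
`γ_{ks}(G) = 2 (k + 1) - n` for `k = n / 2 + 1 > n / 2`.
(2) `p_G(n) ≥ n / 2 + 2` for these `n`.
(3) It is not true that `p_G(n) = ⌊n / 2⌋ + 1` for all `n ≥ 2`. -/
theorem result :
    (∀ n : ℕ, 8 ≤ n → 4 ∣ n → ∃ (V : Type) (_ : Fintype V) (G : SimpleGraph V),
      Fintype.card V = n ∧ G.Connected ∧
        gammaKs G (n / 2 + 1) = 2 * (((n / 2 + 1 : ℕ) : ℤ) + 1) - n) ∧
    (∀ n : ℕ, 8 ≤ n → 4 ∣ n → n / 2 + 2 ≤ pConn n) ∧
    ¬ ∀ n : ℕ, 2 ≤ n → pConn n = n / 2 + 1 := by
  refine ⟨?_, pConn_ge, fun h => ?_⟩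
  · rintro n hn ⟨q, rfl⟩
    refine ⟨Fin (2 * q) × Bool, inferInstance, Gr (2 * q), by simp; omega,
      connected _ (by omega), ?_⟩
    have e : 4 * q / 2 = 2 * q := by omega
    rw [e, gamma_eq (2 * q) ⟨q, by ring⟩ (by omega)]
    push_cast
    ring
  · have h1 := pConn_ge 8 le_rfl ⟨2, rfl⟩
    have h2 := h 8 (by norm_num)
    omega

end Pool.Agent.Results.MP_1fc697_co.ConnectedFails
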